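import Mathlib

/-!
MP_6d986f_an, Q1: the separation constant of the unit ball of the Figiel–Johnson Tsirelson space
`T` is `P(T) = 2`.
-/

set_option autoImplicit false

open Finset

universe u

namespace Pool.Agent.Results.MP_6d986f_an.SeparationTwo

/-- `c₀₀`, indexed by `ℕ = {1,2,...}`. -/
abbrev C00 := ℕ+ →₀ ℝ

/-- `n ≤ E_1 < E_2 < ... < E_n` with `n ≥ 1` and all `E_i` finite and nonempty. -/
def Admissible (n : ℕ) (E : Fin n → Finset ℕ+) : Prop :=
  1 ≤ n ∧ (∀ i, (E i).Nonempty) ∧ (∀ i, ∀ k ∈ E i, n ≤ (k : ℕ)) ∧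
    ∀ i j, i < j → ∀ a ∈ E i, ∀ b ∈ E j, a < b

/-- `N` is a norm on `c₀₀` with
`N x = max (‖x‖_∞) (1/2 sup ∑ N (E_i x))`, the supremum over all admissible `E_1 < ... < E_n`. -/
structure IsTsirelsonNorm (N : C00 → ℝ) : Prop where
  add_le : ∀ x y, N (x + y) ≤ N x + N y
  smul : ∀ (c : ℝ) x, N (c • x) = |c| * N x
  pos : ∀ x, x ≠ 0 → 0 < N x
  implicit : ∀ x, IsLUB ({t | ∃ k, t = |x k|} ∪
    {t | ∃ (n : ℕ) (E : Fin n → Finset ℕ+), Admissible n E ∧
      t = (1 / 2) * ∑ i, N (x.filter (fun k => k ∈ E i))}) (N x)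

/-- `X` is (a copy of) the completion of `c₀₀` in the Tsirelson norm. -/
def IsTsirelsonSpace (X : Type*) [NormedAddCommGroup X] [NormedSpace ℝ X] : Prop :=
  CompleteSpace X ∧ ∃ N : C00 → ℝ, IsTsirelsonNorm N ∧
    ∃ ι : C00 →ₗ[ℝ] X, DenseRange ι ∧ ∀ x, ‖ι x‖ = N x

/-- `P(X)`: the supremum of all `λ > 0` for which the closed unit ball contains an infinite
`λ`-separated set. -/
noncomputable def sepConst (X : Type*) [NormedAddCommGroup X] : ℝ :=
  sSup {l : ℝ | 0 < l ∧ ∃ S : Set X, S.Infinite ∧ (∀ x ∈ S, ‖x‖ ≤ 1) ∧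
    ∀ x ∈ S, ∀ y ∈ S, x ≠ y → l ≤ ‖x - y‖}

/-! ### Consequences of the implicit equation -/

section value

variable {N : C00 → ℝ} (h : IsTsirelsonNorm N)
include h

lemma IsTsirelsonNorm.zero : N 0 = 0 := by
  have := h.smul 0 0
  simpa using this

lemma IsTsirelsonNorm.nonneg (x : C00) : 0 ≤ N x := by
  by_cases hx : x = 0
  · rw [hx, h.zero]
  · exact (h.pos x hx).le

lemma IsTsirelsonNorm.abs_le (x : C00) (k : ℕ+) : |x k| ≤ N x :=
  (h.implicit x).1 (Or.inl ⟨k, rfl⟩)

lemma IsTsirelsonNorm.sum_le (x : C00) {n : ℕ} {E : Fin n → Finset ℕ+} (hE : Admissible n E) :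
    (1 / 2) * ∑ i, N (x.filter (fun k => k ∈ E i)) ≤ N x :=
  (h.implicit x).1 (Or.inr ⟨n, E, hE, rfl⟩)

omit h in
lemma adm_unique {n : ℕ} {E : Fin n → Finset ℕ+} (hE : Admissible n E) {k : ℕ+} {i j : Fin n}
    (hi : k ∈ E i) (hj : k ∈ E j) : i = j := by
  rcases lt_trichotomy i j with hij | hij | hij
  · exact absurd (hE.2.2.2 i j hij k hi k hj) (lt_irrefl _)
  · exact hij
  · exact absurd (hE.2.2.2 j i hij k hj k hi) (lt_irrefl _)

lemma IsTsirelsonNorm.single_le (k : ℕ+) : N (Finsupp.single k 1) ≤ 1 := by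
  have key : N (Finsupp.single k 1) ≤ max 1 ((1 / 2) * N (Finsupp.single k 1)) := by
    apply (h.implicit _).2
    rintro t (⟨j, rfl⟩ | ⟨n, E, hE, rfl⟩)
    · refine le_trans ?_ (le_max_left _ _)
      by_cases hj : k = j
      · subst hj; simp
      · rw [Finsupp.single_eq_of_ne (Ne.symm hj)]; simp
    · refine le_trans ?_ (le_max_right _ _)
      apply mul_le_mul_of_nonneg_left _ (by norm_num)
      by_cases hk : ∃ i, k ∈ E i
      · obtain ⟨i₀, hi₀⟩ := hk
        rw [Finset.sum_eq_single i₀]
        · rw [Finsupp.filter_single_of_pos _ hi₀]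
        · intro j _ hj
          rw [Finsupp.filter_single_of_neg _ (fun hk' => hj (adm_unique hE hk' hi₀)), h.zero]
        · intro hn; exact absurd (mem_univ _) hn
      · push Not at hk
        rw [Finset.sum_eq_zero]
        · exact h.nonneg _
        · intro i _
          rw [Finsupp.filter_single_of_neg _ (hk i), h.zero]
  rcases le_max_iff.mp key with h1 | h1
  · exact h1
  · have := h.nonneg (Finsupp.single k 1)
    linarith

lemma IsTsirelsonNorm.le_l1 (x : C00) : N x ≤ ∑ k ∈ x.support, |x k| := by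
  have gen : ∀ s : Finset ℕ+, N (∑ k ∈ s, Finsupp.single k (x k)) ≤ ∑ k ∈ s, |x k| := by
    classical
    intro s
    induction s using Finset.induction_on with
    | empty => simp [h.zero]
    | insert a s ha ih =>
      rw [Finset.sum_insert ha, Finset.sum_insert ha]
      refine (h.add_le _ _).trans ?_
      have h1 : N (Finsupp.single a (x a)) ≤ |x a| := by
        have : Finsupp.single a (x a) = (x a) • (Finsupp.single a (1 : ℝ)) := by simp
        rw [this, h.smul]
        calc |x a| * N (Finsupp.single a 1) ≤ |x a| * 1 :=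
              mul_le_mul_of_nonneg_left (h.single_le a) (abs_nonneg _)
          _ = |x a| := mul_one _
      linarith
  have h2 := gen x.support
  have h3 : ∑ k ∈ x.support, Finsupp.single k (x k) = x := Finsupp.sum_single x
  rwa [h3] at h2

lemma IsTsirelsonNorm.le_of {x : C00} {b : ℝ} (h1 : ∀ k, |x k| ≤ b)
    (h2 : ∑ k ∈ x.support, |x k| ≤ 2 * b) : N x ≤ b := by
  classical
  apply (h.implicit _).2
  rintro t (⟨j, rfl⟩ | ⟨n, E, hE, rfl⟩)
  · exact h1 j
  · have h3 : ∀ i, N (x.filter (fun k => k ∈ E i)) ≤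
        ∑ k ∈ x.support, if k ∈ E i then |x k| else 0 := by
      intro i
      refine (h.le_l1 _).trans (le_of_eq ?_)
      rw [Finsupp.support_filter, Finset.sum_filter]
      apply Finset.sum_congr rfl
      intro k _
      by_cases hk : k ∈ E i
      · rw [if_pos hk, if_pos hk, Finsupp.filter_apply_pos _ _ hk]
      · rw [if_neg hk, if_neg hk]
    have h4 : ∑ i, N (x.filter (fun k => k ∈ E i)) ≤ ∑ k ∈ x.support, |x k| := by
      calc ∑ i, N (x.filter (fun k => k ∈ E i))
          ≤ ∑ i, ∑ k ∈ x.support, (if k ∈ E i then |x k| else 0) :=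
            Finset.sum_le_sum (fun i _ => h3 i)
        _ = ∑ k ∈ x.support, ∑ i, (if k ∈ E i then |x k| else 0) := Finset.sum_comm
        _ ≤ ∑ k ∈ x.support, |x k| := by
            apply Finset.sum_le_sum
            intro k _
            by_cases hk : ∃ i, k ∈ E i
            · obtain ⟨i₀, hi₀⟩ := hk
              rw [Finset.sum_eq_single i₀]
              · rw [if_pos hi₀]
              · intro j _ hj
                rw [if_neg (fun hk' => hj (adm_unique hE hk' hi₀))]
              · intro hn; exact absurd (mem_univ _) hn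
            · push Not at hk
              rw [Finset.sum_eq_zero]
              · exact abs_nonneg _
              · intro i _
                rw [if_neg (hk i)]
    linarith

end value

/-- The vectors `e_{2j+4} + e_{2j+5}`. -/
noncomputable def vec (j : ℕ) : C00 :=
  Finsupp.single (Nat.succPNat (2 * j + 3)) 1 + Finsupp.single (Nat.succPNat (2 * j + 4)) 1

lemma vec_apply (j : ℕ) (k : ℕ+) :
    vec j k = if (k : ℕ) = 2 * j + 4 ∨ (k : ℕ) = 2 * j + 5 then 1 else 0 := by
  classical
  unfold vec
  rw [Finsupp.add_apply, Finsupp.single_apply, Finsupp.single_apply]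
  have e1 : (Nat.succPNat (2 * j + 3) = k) ↔ (k : ℕ) = 2 * j + 4 := by
    rw [← PNat.coe_inj, Nat.succPNat_coe]; omega
  have e2 : (Nat.succPNat (2 * j + 4) = k) ↔ (k : ℕ) = 2 * j + 5 := by
    rw [← PNat.coe_inj, Nat.succPNat_coe]; omega
  simp only [e1, e2]
  by_cases h1 : (k : ℕ) = 2 * j + 4
  · have h2 : ¬ (k : ℕ) = 2 * j + 5 := by omega
    simp [h1]
  · by_cases h2 : (k : ℕ) = 2 * j + 5
    · simp [h2]
    · simp [h1, h2]

lemma vec_norm_le {N : C00 → ℝ} (h : IsTsirelsonNorm N) (j : ℕ) : N (vec j) ≤ 1 := by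
  classical
  apply h.le_of
  · intro k
    rw [vec_apply]
    split_ifs <;> simp
  · have hs : (vec j).support ⊆ {Nat.succPNat (2 * j + 3), Nat.succPNat (2 * j + 4)} := by
      intro k hk
      rw [Finsupp.mem_support_iff, vec_apply] at hk
      have hk' : (k : ℕ) = 2 * j + 4 ∨ (k : ℕ) = 2 * j + 5 := by
        by_contra hc
        exact hk (if_neg hc)
      rw [Finset.mem_insert, Finset.mem_singleton, ← PNat.coe_inj, ← PNat.coe_inj,
        Nat.succPNat_coe, Nat.succPNat_coe]
      omega
    calc ∑ k ∈ (vec j).support, |vec j k| ≤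
        ∑ k ∈ ({Nat.succPNat (2 * j + 3), Nat.succPNat (2 * j + 4)} : Finset ℕ+), |vec j k| :=
          Finset.sum_le_sum_of_subset_of_nonneg hs (fun _ _ _ => abs_nonneg _)
      _ ≤ ∑ k ∈ ({Nat.succPNat (2 * j + 3), Nat.succPNat (2 * j + 4)} : Finset ℕ+), (1 : ℝ) := by
          apply Finset.sum_le_sum
          intro k _
          rw [vec_apply]
          split_ifs <;> simp
      _ ≤ 2 * 1 := by
          rw [Finset.sum_const, nsmul_eq_mul, mul_one, mul_one]
          exact_mod_cast Finset.card_le_two

lemma vec_sep_aux {N : C00 → ℝ} (h : IsTsirelsonNorm N) {i j : ℕ} (hij : i < j) :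
    2 ≤ N (vec i - vec j) := by
  classical
  set x := vec i - vec j with hx
  let a : Fin 4 → ℕ := ![2 * i + 3, 2 * i + 4, 2 * j + 3, 2 * j + 4]
  have ha : ∀ s, 3 ≤ a s := by
    intro s; fin_cases s <;> simp [a]
  let A : Fin 4 → ℕ+ := fun s => Nat.succPNat (a s)
  have hA : ∀ s, (A s : ℕ) = a s + 1 := fun s => rfl
  let E : Fin 4 → Finset ℕ+ := fun s => {A s}
  have hmono : ∀ s t : Fin 4, s < t → a s < a t := by
    intro s t hst
    fin_cases s <;> fin_cases t <;> simp [a] at hst ⊢ <;> omega
  have hE : Admissible 4 E := by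
    refine ⟨by norm_num, fun s => Finset.singleton_nonempty _, ?_, ?_⟩
    · intro s k hk
      rw [Finset.mem_singleton.mp hk, hA]
      have := ha s
      omega
    · intro s t hst p hp q hq
      rw [Finset.mem_singleton.mp hp, Finset.mem_singleton.mp hq, ← PNat.coe_lt_coe, hA, hA]
      have := hmono s t hst
      omega
  have hval : ∀ s, |x (A s)| = 1 := by
    intro s
    rw [hx, Finsupp.sub_apply, vec_apply, vec_apply, hA]
    have cases : (a s = 2 * i + 3 ∨ a s = 2 * i + 4) ∨ (a s = 2 * j + 3 ∨ a s = 2 * j + 4) := by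
      fin_cases s <;> simp [a]
    rcases cases with hc | hc
    · rw [if_pos (by omega), if_neg (by omega)]; simp
    · rw [if_neg (by omega), if_pos (by omega)]; simp
  have h1 := h.sum_le x hE
  have h2 : ∀ s, 1 ≤ N (x.filter (fun k => k ∈ E s)) := by
    intro s
    have h3 := h.abs_le (x.filter (fun k => k ∈ E s)) (A s)
    rw [Finsupp.filter_apply_pos _ _ (Finset.mem_singleton_self _), hval s] at h3
    exact h3
  have h4 : (4 : ℝ) ≤ ∑ s, N (x.filter (fun k => k ∈ E s)) := by
    calc (4 : ℝ) = ∑ _s : Fin 4, (1 : ℝ) := by simp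
      _ ≤ _ := Finset.sum_le_sum (fun s _ => h2 s)
  linarith

lemma vec_sep {N : C00 → ℝ} (h : IsTsirelsonNorm N) {i j : ℕ} (hij : i ≠ j) :
    2 ≤ N (vec i - vec j) := by
  rcases lt_or_gt_of_ne hij with h1 | h1
  · exact vec_sep_aux h h1
  · have h2 := vec_sep_aux h h1
    have h3 : vec i - vec j = (-1 : ℝ) • (vec j - vec i) := by simp
    rw [h3, h.smul]
    simpa using h2

theorem sepConst_eq {X : Type*} [NormedAddCommGroup X] [NormedSpace ℝ X]
    (hX : IsTsirelsonSpace X) : sepConst X = 2 := by
  obtain ⟨-, N, h, ι, -, hι⟩ := hX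
  have hgr : IsGreatest {l : ℝ | 0 < l ∧ ∃ S : Set X, S.Infinite ∧ (∀ x ∈ S, ‖x‖ ≤ 1) ∧
      ∀ x ∈ S, ∀ y ∈ S, x ≠ y → l ≤ ‖x - y‖} 2 := by
    constructor
    · have hsep : ∀ i j, i ≠ j → 2 ≤ ‖ι (vec i) - ι (vec j)‖ := by
        intro i j hij
        rw [← map_sub, hι]
        exact vec_sep h hij
      refine ⟨by norm_num, Set.range (fun j => ι (vec j)), ?_, ?_, ?_⟩
      · apply Set.infinite_range_of_injective
        intro i j hij
        by_contra hne
        have h1 := hsep i j hne
        have h2 : ι (vec i) = ι (vec j) := hij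
        rw [h2, sub_self, norm_zero] at h1
        norm_num at h1
      · rintro _ ⟨j, rfl⟩
        rw [hι]
        exact vec_norm_le h j
      · rintro _ ⟨i, rfl⟩ _ ⟨j, rfl⟩ hne
        apply hsep
        rintro rfl
        exact hne rfl
    · rintro l ⟨-, S, hS, hS1, hS2⟩
      obtain ⟨x, hx, y, hy, hne⟩ := hS.nontrivial
      have h1 := hS2 x hx y hy hne
      calc l ≤ ‖x - y‖ := h1
        _ ≤ ‖x‖ + ‖y‖ := norm_sub_le _ _
        _ ≤ 2 := by linarith [hS1 x hx, hS1 y hy]
  exact hgr.csSup_eq

/-! ### Existence of the norm and of the space -/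

/-- The norming functionals of `T`. -/
inductive K : C00 → Prop
  | zero : K 0
  | basis (k : ℕ+) (e : ℝ) (he : |e| = 1) : K (Finsupp.single k e)
  | step (n : ℕ) (E : Fin n → Finset ℕ+) (hE : Admissible n E) (f : Fin n → C00)
      (hf : ∀ i, K (f i)) (hs : ∀ i, (f i).support ⊆ E i) : K ((1 / 2 : ℝ) • ∑ i, f i)

/-- The pairing of two finitely supported sequences. -/
noncomputable def pair (f x : C00) : ℝ := ∑ k ∈ x.support, f k * x k

lemma pair_eq (f x : C00) {s : Finset ℕ+} (hs : x.support ⊆ s) :
    pair f x = ∑ k ∈ s, f k * x k := by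
  unfold pair
  apply Finset.sum_subset hs
  intro k _ hk
  rw [Finsupp.notMem_support_iff.mp hk, mul_zero]

lemma pair_add (f x y : C00) : pair f (x + y) = pair f x + pair f y := by
  classical
  rw [pair_eq f (x + y) Finsupp.support_add, pair_eq f x Finset.subset_union_left,
    pair_eq f y Finset.subset_union_right, ← Finset.sum_add_distrib]
  apply Finset.sum_congr rfl
  intro k _
  rw [Finsupp.add_apply]; ring

lemma pair_smul (f x : C00) (c : ℝ) : pair f (c • x) = c * pair f x := by
  rw [pair_eq f (c • x) Finsupp.support_smul]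
  unfold pair
  rw [Finset.mul_sum]
  apply Finset.sum_congr rfl
  intro k _
  rw [Finsupp.smul_apply, smul_eq_mul]; ring

lemma pair_smul_left (f x : C00) (c : ℝ) : pair (c • f) x = c * pair f x := by
  unfold pair
  rw [Finset.mul_sum]
  apply Finset.sum_congr rfl
  intro k _
  rw [Finsupp.smul_apply, smul_eq_mul]; ring

lemma pair_sum_left {n : ℕ} (f : Fin n → C00) (x : C00) :
    pair (∑ i, f i) x = ∑ i, pair (f i) x := by
  unfold pair
  rw [Finset.sum_comm]
  apply Finset.sum_congr rfl
  intro k _
  rw [Finsupp.finsetSum_apply, Finset.sum_mul]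

lemma pair_filter (f x : C00) (E : Finset ℕ+) :
    pair (f.filter (fun k => k ∈ E)) x = pair f (x.filter (fun k => k ∈ E)) := by
  classical
  rw [pair_eq f (x.filter (fun k => k ∈ E)) (s := x.support)
    (by rw [Finsupp.support_filter]; exact Finset.filter_subset _ _)]
  unfold pair
  apply Finset.sum_congr rfl
  intro k _
  by_cases hk : k ∈ E
  · rw [Finsupp.filter_apply_pos _ _ hk, Finsupp.filter_apply_pos _ _ hk]
  · rw [Finsupp.filter_apply_neg _ _ hk, Finsupp.filter_apply_neg _ _ hk]; simp

lemma K.abs_le {f : C00} (hf : K f) (k : ℕ+) : |f k| ≤ 1 := by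
  classical
  induction hf with
  | zero => simp
  | basis j e he =>
    rw [Finsupp.single_apply]
    split_ifs
    · exact he.le
    · simp
  | step n E hE f hf hs ih =>
    rw [Finsupp.smul_apply, Finsupp.finsetSum_apply, smul_eq_mul, abs_mul]
    have h1 : |∑ i, f i k| ≤ 1 := by
      by_cases hk : ∃ i, k ∈ E i
      · obtain ⟨i₀, hi₀⟩ := hk
        rw [Finset.sum_eq_single i₀]
        · exact ih i₀
        · intro j _ hj
          have : k ∉ (f j).support := fun hk' => hj (adm_unique hE (hs j hk') hi₀)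
          exact Finsupp.notMem_support_iff.mp this
        · intro hn; exact absurd (mem_univ _) hn
      · push Not at hk
        rw [Finset.sum_eq_zero]
        · simp
        · intro i _
          have : k ∉ (f i).support := fun hk' => hk i (hs i hk')
          exact Finsupp.notMem_support_iff.mp this
    have h2 : |(1 / 2 : ℝ)| = 1 / 2 := by norm_num
    rw [h2]
    linarith [abs_nonneg (∑ i, f i k)]

lemma K.neg {f : C00} (hf : K f) : K (-f) := by
  induction hf with
  | zero => rw [neg_zero]; exact K.zero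
  | basis j e he =>
    rw [← Finsupp.single_neg]
    exact K.basis j (-e) (by rwa [abs_neg])
  | step n E hE f hf hs ih =>
    have : -((1 / 2 : ℝ) • ∑ i, f i) = (1 / 2 : ℝ) • ∑ i, -f i := by
      rw [Finset.sum_neg_distrib, smul_neg]
    rw [this]
    refine K.step n E hE _ ih (fun i => ?_)
    rw [Finsupp.support_neg]; exact hs i

lemma K.filter {f : C00} (hf : K f) (F : Finset ℕ+) : K (f.filter (fun k => k ∈ F)) := by
  classical
  induction hf with
  | zero => rw [Finsupp.filter_zero]; exact K.zero
  | basis j e he =>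
    by_cases hj : j ∈ F
    · rw [Finsupp.filter_single_of_pos _ hj]; exact K.basis j e he
    · rw [Finsupp.filter_single_of_neg _ hj]; exact K.zero
  | step n E hE f hf hs ih =>
    have : ((1 / 2 : ℝ) • ∑ i, f i).filter (fun k => k ∈ F) =
        (1 / 2 : ℝ) • ∑ i, (f i).filter (fun k => k ∈ F) := by
      ext k
      by_cases hk : k ∈ F
      · rw [Finsupp.filter_apply_pos _ _ hk, Finsupp.smul_apply, Finsupp.smul_apply,
          Finsupp.finsetSum_apply, Finsupp.finsetSum_apply]
        congr 1
        apply Finset.sum_congr rfl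
        intro i _
        rw [Finsupp.filter_apply_pos _ _ hk]
      · rw [Finsupp.filter_apply_neg _ _ hk, Finsupp.smul_apply,
          Finsupp.finsetSum_apply, Finset.sum_eq_zero]
        · simp
        · intro i _
          rw [Finsupp.filter_apply_neg _ _ hk]
    rw [this]
    refine K.step n E hE _ ih (fun i => ?_)
    rw [Finsupp.support_filter]
    exact (Finset.filter_subset _ _).trans (hs i)

/-- The Tsirelson norm. -/
noncomputable def tsNorm (x : C00) : ℝ := sSup {t | ∃ f, K f ∧ t = pair f x}

lemma bdd (x : C00) : BddAbove {t | ∃ f, K f ∧ t = pair f x} := by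
  refine ⟨∑ k ∈ x.support, |x k|, ?_⟩
  rintro _ ⟨f, hf, rfl⟩
  apply Finset.sum_le_sum
  intro k _
  calc f k * x k ≤ |f k * x k| := le_abs_self _
    _ = |f k| * |x k| := abs_mul _ _
    _ ≤ 1 * |x k| := mul_le_mul_of_nonneg_right (hf.abs_le k) (abs_nonneg _)
    _ = |x k| := one_mul _

lemma nonempty (x : C00) : {t | ∃ f, K f ∧ t = pair f x}.Nonempty := ⟨_, 0, K.zero, rfl⟩

lemma pair_le {f : C00} (hf : K f) (x : C00) : pair f x ≤ tsNorm x :=
  le_csSup (bdd x) ⟨f, hf, rfl⟩

lemma abs_le_tsNorm (x : C00) (k : ℕ+) : |x k| ≤ tsNorm x := by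
  classical
  have key : ∀ e : ℝ, |e| = 1 → e * x k ≤ tsNorm x := by
    intro e he
    have h1 := pair_le (K.basis k e he) x
    have h2 : pair (Finsupp.single k e) x = e * x k := by
      rw [pair_eq _ _ (Finset.subset_insert k x.support), Finset.sum_eq_single k]
      · rw [Finsupp.single_eq_same]
      · intro j _ hj
        rw [Finsupp.single_eq_of_ne hj, zero_mul]
      · intro hn; exact absurd (Finset.mem_insert_self _ _) hn
    rwa [h2] at h1
  rcases abs_cases (x k) with ⟨h, -⟩ | ⟨h, -⟩
  · rw [h]; simpa using key 1 (by simp)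
  · rw [h]; simpa using key (-1) (by simp)

lemma tsNorm_smul_le (c : ℝ) (x : C00) : tsNorm (c • x) ≤ |c| * tsNorm x := by
  apply csSup_le (nonempty _)
  rintro _ ⟨f, hf, rfl⟩
  rw [pair_smul]
  rcases abs_cases c with ⟨h, h0⟩ | ⟨h, h0⟩
  · rw [h]; exact mul_le_mul_of_nonneg_left (pair_le hf x) h0
  · have h1 := pair_le hf.neg x
    have h2 : pair (-f) x = -pair f x := by
      have := pair_smul_left f x (-1)
      rw [neg_one_smul] at this
      rw [this]; ring
    rw [h2] at h1
    rw [h]
    nlinarith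

theorem isTsirelsonNorm_tsNorm : IsTsirelsonNorm tsNorm where
  add_le x y := by
    apply csSup_le (nonempty _)
    rintro _ ⟨f, hf, rfl⟩
    rw [pair_add]
    exact add_le_add (pair_le hf x) (pair_le hf y)
  smul c x := by
    apply le_antisymm (tsNorm_smul_le c x)
    by_cases hc : c = 0
    · subst hc
      rw [abs_zero, zero_mul, zero_smul]
      exact (abs_nonneg _).trans (abs_le_tsNorm 0 1)
    · have h1 := tsNorm_smul_le c⁻¹ (c • x)
      rw [smul_smul, inv_mul_cancel₀ hc, one_smul, abs_inv] at h1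
      have hc' : 0 < |c| := abs_pos.mpr hc
      calc |c| * tsNorm x ≤ |c| * (|c|⁻¹ * tsNorm (c • x)) :=
            mul_le_mul_of_nonneg_left h1 hc'.le
        _ = tsNorm (c • x) := by field_simp
  pos x hx := by
    obtain ⟨k, hk⟩ : ∃ k, x k ≠ 0 := by
      by_contra hc
      push Not at hc
      exact hx (Finsupp.ext hc)
    exact (abs_pos.mpr hk).trans_le (abs_le_tsNorm x k)
  implicit x := by
    classical
    constructor
    · rintro t (⟨k, rfl⟩ | ⟨n, E, hE, rfl⟩)
      · exact abs_le_tsNorm x k
      · apply le_of_forall_pos_le_add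
        intro ε hε
        have hn : (0 : ℝ) < n := by exact_mod_cast hE.1
        have hch : ∀ i : Fin n, ∃ f, K f ∧
            tsNorm (x.filter (fun k => k ∈ E i)) - ε / n < pair f (x.filter (fun k => k ∈ E i)) := by
          intro i
          have h1 : tsNorm (x.filter (fun k => k ∈ E i)) - ε / n <
              tsNorm (x.filter (fun k => k ∈ E i)) := by
            have := div_pos hε hn
            linarith
          obtain ⟨_, ⟨f, hf, rfl⟩, hlt⟩ := exists_lt_of_lt_csSup (nonempty _) h1
          exact ⟨f, hf, hlt⟩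
        choose f hf hlt using hch
        have hK : K ((1 / 2 : ℝ) • ∑ i, (f i).filter (fun k => k ∈ E i)) := by
          refine K.step n E hE _ (fun i => (hf i).filter _) (fun i => ?_)
          rw [Finsupp.support_filter]
          intro k hk
          exact (Finset.mem_filter.mp hk).2
        have h2 := pair_le hK x
        rw [pair_smul_left, pair_sum_left] at h2
        have h3 : ∑ i, pair ((f i).filter (fun k => k ∈ E i)) x =
            ∑ i, pair (f i) (x.filter (fun k => k ∈ E i)) :=
          Finset.sum_congr rfl (fun i _ => pair_filter _ _ _)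
        rw [h3] at h2
        have h4 : ∑ i, (tsNorm (x.filter (fun k => k ∈ E i)) - ε / n) ≤
            ∑ i, pair (f i) (x.filter (fun k => k ∈ E i)) :=
          Finset.sum_le_sum (fun i _ => (hlt i).le)
        rw [Finset.sum_sub_distrib, Finset.sum_const, Finset.card_univ, Fintype.card_fin,
          nsmul_eq_mul, mul_div_cancel₀ _ hn.ne'] at h4
        linarith
    · intro b hb
      apply csSup_le (nonempty _)
      rintro _ ⟨f, hf, rfl⟩
      have hb0 : ∀ k, |x k| ≤ b := fun k => hb (Or.inl ⟨k, rfl⟩)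
      cases hf with
      | zero =>
        have : pair 0 x = 0 := by simp [pair]
        rw [this]
        exact (abs_nonneg _).trans (hb0 1)
      | basis j e he =>
        have h2 : pair (Finsupp.single j e) x = e * x j := by
          rw [pair_eq _ _ (Finset.subset_insert j x.support), Finset.sum_eq_single j]
          · rw [Finsupp.single_eq_same]
          · intro i _ hi
            rw [Finsupp.single_eq_of_ne hi, zero_mul]
          · intro hn; exact absurd (Finset.mem_insert_self _ _) hn
        rw [h2]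
        calc e * x j ≤ |e * x j| := le_abs_self _
          _ = |x j| := by rw [abs_mul, he, one_mul]
          _ ≤ b := hb0 j
      | step n E hE f hf hs =>
        have h1 : (1 / 2) * ∑ i, tsNorm (x.filter (fun k => k ∈ E i)) ≤ b :=
          hb (Or.inr ⟨n, E, hE, rfl⟩)
        rw [pair_smul_left, pair_sum_left]
        have h2 : ∑ i, pair (f i) x ≤ ∑ i, tsNorm (x.filter (fun k => k ∈ E i)) := by
          apply Finset.sum_le_sum
          intro i _
          have h3 : (f i).filter (fun k => k ∈ E i) = f i := by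
            rw [Finsupp.filter_eq_self_iff]
            intro k hk
            exact hs i (Finsupp.mem_support_iff.mpr hk)
          calc pair (f i) x = pair ((f i).filter (fun k => k ∈ E i)) x := by rw [h3]
            _ = pair (f i) (x.filter (fun k => k ∈ E i)) := pair_filter _ _ _
            _ ≤ _ := pair_le (hf i) _
        linarith

/-- `c₀₀` with the Tsirelson norm. -/
def TS : Type := C00

noncomputable instance : AddCommGroup TS := inferInstanceAs (AddCommGroup C00)
noncomputable instance : Module ℝ TS := inferInstanceAs (Module ℝ C00)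
noncomputable instance : Norm TS := ⟨fun x => tsNorm (x : C00)⟩

lemma tsCore : NormedSpace.Core ℝ TS where
  norm_nonneg x := isTsirelsonNorm_tsNorm.nonneg (x : C00)
  norm_smul c x := isTsirelsonNorm_tsNorm.smul c (x : C00)
  norm_triangle x y := isTsirelsonNorm_tsNorm.add_le (x : C00) (y : C00)
  norm_eq_zero_iff x := by
    constructor
    · intro h
      by_contra hx
      exact (isTsirelsonNorm_tsNorm.pos (x : C00) hx).ne' h
    · rintro rfl
      exact isTsirelsonNorm_tsNorm.zero

noncomputable instance : NormedAddCommGroup TS := NormedAddCommGroup.ofCore tsCore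
noncomputable instance : NormedSpace ℝ TS := NormedSpace.ofCore tsCore

/-- The identity `c₀₀ → TS`. -/
noncomputable def toTS : C00 →ₗ[ℝ] TS where
  toFun x := x
  map_add' _ _ := rfl
  map_smul' _ _ := rfl

theorem exists_space :
    ∃ (X : Type) (_ : NormedAddCommGroup X) (_ : NormedSpace ℝ X), IsTsirelsonSpace X := by
  refine ⟨UniformSpace.Completion TS, inferInstance, inferInstance, inferInstance, tsNorm,
    isTsirelsonNorm_tsNorm,
    (UniformSpace.Completion.toComplₗᵢ (𝕜 := ℝ) (E := TS)).toLinearMap.comp toTS, ?_, ?_⟩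
  · exact UniformSpace.Completion.denseRange_coe (α := TS)
  · intro x
    exact UniformSpace.Completion.norm_coe (E := TS) x

/-- **MP_6d986f_an, Q1.** The Figiel–Johnson Tsirelson space exists and its separation constant
is `P(T) = 2`. -/
theorem result :
    (∃ (X : Type) (_ : NormedAddCommGroup X) (_ : NormedSpace ℝ X), IsTsirelsonSpace X) ∧
    ∀ (X : Type u) [NormedAddCommGroup X] [NormedSpace ℝ X], IsTsirelsonSpace X →
      sepConst X = 2 :=
  ⟨exists_space, fun _ _ _ hX => sepConst_eq hX⟩

end Pool.Agent.Results.MP_6d986f_an.SeparationTwo
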